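import Pool.Agent.Helper12.TS.StB
import Pool.Agent.Helper51.AJ.Basic

/-!
# Project TS (MP_d63854_co), module MDE: from parts to a retraction
-/

set_option autoImplicit false

namespace Pool.Agent.Helper32.TS

open Pool.Agent.Helper12.TS
open Pool.Agent.Helper51.AJ (IsMinor Planar Apex ExMinor Con Tch)
open Pool.Agent.Helper12.NK (rst Kc add)

private theorem con_of_le {V : Type} {G H : SimpleGraph V} {S : Set V}
    (h : ∀ x ∈ S, ∀ y ∈ S, G.Adj x y → H.Adj x y) (hc : Con G S) : Con H S :=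
  SimpleGraph.Connected.mono (fun a b hab => h a.1 a.2 b.1 b.2 hab) hc

/-- `x` is sent to `y` -/
private def Qr {V ι : Type} (A T : Set V) (φ : ι → Set V) (P : V → Set V) (r : ι → V) (x y : V) : Prop :=
  (y ∈ T ∧ x ∈ P y) ∨ (∃ i, x ∈ φ i ∧ ¬ (φ i ∩ T).Nonempty ∧ y = r i) ∨ (x ∉ A ∪ T ∧ y = x)

theorem hMDE : StMDE := by
  intro V ι _ _ G D A T Γ φ P hAT hD hkc hnp hcard hmd hcov hP hPd hφP
  have hne : ∀ i, (φ i).Nonempty := fun i => Pool.Agent.Helper51.AJ.con_nonempty (hmd.1 i)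
  choose r hr using hne
  have hdj : ∀ i j x, x ∈ φ i → x ∈ φ j → i = j := by
    intro i j x hi hj
    by_contra hij
    exact Set.disjoint_left.1 (hmd.2.1 i j hij) hi hj
  have hsub : ∀ i, φ i ⊆ A ∪ T := by
    intro i
    rw [← hcov]
    exact Set.subset_iUnion φ i
  -- the part of `t` is in the branch set of `t`
  have hPφ : ∀ t ∈ T, ∃ i, t ∈ φ i ∧ P t ⊆ φ i := by
    intro t ht
    have h1 : t ∈ ⋃ i, φ i := by
      rw [hcov]
      exact Or.inr ht
    obtain ⟨i, hi⟩ := Set.mem_iUnion.1 h1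
    refine ⟨i, hi, ?_⟩
    intro x hx
    rw [hφP i ⟨t, hi, ht⟩]
    exact Set.mem_biUnion (show t ∈ φ i ∩ T from ⟨hi, ht⟩) hx
  have hPT : ∀ t ∈ T, ∀ x ∈ P t, ∀ j, x ∈ φ j → t ∈ φ j := by
    intro t ht x hx j hj
    obtain ⟨i, hi, hsubi⟩ := hPφ t ht
    rw [hdj j i x hj (hsubi hx)]
    exact hi
  have hPsub : ∀ t ∈ T, P t ⊆ A ∪ T := by
    intro t ht x hx
    rcases (hP t ht).2.2 hx with h | h
    · exact Or.inl h
    · rw [Set.mem_singleton_iff.1 h]
      exact Or.inr ht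
  have hex : ∀ x, ∃ y, Qr A T φ P r x y := by
    intro x
    by_cases hx : x ∈ A ∪ T
    · have h1 : x ∈ ⋃ i, φ i := by
        rw [hcov]
        exact hx
      obtain ⟨i, hi⟩ := Set.mem_iUnion.1 h1
      by_cases hiT : (φ i ∩ T).Nonempty
      · have h2 := hi
        rw [hφP i hiT] at h2
        obtain ⟨t, ht, hxt⟩ := Set.mem_iUnion₂.1 h2
        exact ⟨t, Or.inl ⟨ht.2, hxt⟩⟩
      · exact ⟨r i, Or.inr (Or.inl ⟨i, hi, hiT, rfl⟩)⟩
    · exact ⟨x, Or.inr (Or.inr ⟨hx, rfl⟩)⟩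
  choose ρ hρ using hex
  have huniq : ∀ x y y', Qr A T φ P r x y → Qr A T φ P r x y' → y = y' := by
    intro x y y' h h'
    rcases h with ⟨hy, hxy⟩ | ⟨i, hi, hiT, hyi⟩ | ⟨hx, hyx⟩
    · rcases h' with ⟨hy', hxy'⟩ | ⟨j, hj, hjT, hyj⟩ | ⟨hx, hyx⟩
      · by_contra hne
        exact Set.disjoint_left.1 (hPd y hy y' hy' hne) hxy hxy'
      · exact absurd ⟨y, hPT y hy x hxy j hj, hy⟩ hjT
      · exact absurd (hPsub y hy hxy) hx
    · rcases h' with ⟨hy', hxy'⟩ | ⟨j, hj, hjT, hyj⟩ | ⟨hx, hyx⟩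
      · exact absurd ⟨y', hPT y' hy' x hxy' i hi, hy'⟩ hiT
      · rw [hyi, hyj, hdj i j x hi hj]
      · exact absurd (hsub i hi) hx
    · rcases h' with ⟨hy', hxy'⟩ | ⟨j, hj, hjT, hyj⟩ | ⟨hx', hyx'⟩
      · exact absurd (hPsub y' hy' hxy') hx
      · exact absurd (hsub j hj) hx
      · rw [hyx, hyx']
  have hiff : ∀ x y, ρ x = y ↔ Qr A T φ P r x y := by
    intro x y
    constructor
    · intro h
      rw [← h]
      exact hρ x
    · intro h
      exact huniq x _ _ (hρ x) h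
  -- the fibres
  have hfT : ∀ t ∈ T, {z | ρ z = t} = P t := by
    intro t ht
    ext z
    rw [Set.mem_setOf_eq, hiff]
    constructor
    · rintro (⟨_, h⟩ | ⟨i, hi, hiT, hti⟩ | ⟨hz, htz⟩)
      · exact h
      · exfalso
        apply hiT
        refine ⟨t, ?_, ht⟩
        rw [hti]
        exact hr i
      · exfalso
        apply hz
        rw [← htz]
        exact Or.inr ht
    · intro h
      exact Or.inl ⟨ht, h⟩
  have hidT : ∀ t ∈ T, ρ t = t := by
    intro t ht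
    rw [hiff]
    exact Or.inl ⟨ht, (hP t ht).2.1⟩
  have hfr : ∀ i, ¬ (φ i ∩ T).Nonempty → {z | ρ z = r i} = φ i := by
    intro i hiT
    ext z
    rw [Set.mem_setOf_eq, hiff]
    constructor
    · rintro (⟨h0, h⟩ | ⟨j, hj, hjT, hij⟩ | ⟨hz, hiz⟩)
      · exact absurd ⟨r i, hr i, h0⟩ hiT
      · have h1 : r i ∈ φ j := by
          rw [hij]
          exact hr j
        rw [hdj i j (r i) (hr i) h1]
        exact hj
      · exfalso
        apply hz
        rw [← hiz]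
        exact hsub i (hr i)
    · intro h
      exact Or.inr (Or.inl ⟨i, h, hiT, rfl⟩)
  have hfo : ∀ x, x ∉ A ∪ T → {z | ρ z = x} = {x} := by
    intro x hx
    ext z
    rw [Set.mem_setOf_eq, hiff, Set.mem_singleton_iff]
    constructor
    · rintro (⟨h0, h⟩ | ⟨j, hj, hjT, hij⟩ | ⟨hz, hiz⟩)
      · exact absurd (Or.inr h0) hx
      · exfalso
        apply hx
        rw [hij]
        exact hsub j (hr j)
      · exact hiz.symm
    · intro h
      rw [h]
      exact Or.inr (Or.inr ⟨hx, rfl⟩)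
  have hrtr : Rtr G A T ρ := by
    refine ⟨?_, ?_, ?_, ?_⟩
    · intro x hx
      by_cases hxT : x ∈ T
      · exact hidT x hxT
      · rw [hiff]
        refine Or.inr (Or.inr ⟨?_, rfl⟩)
        rintro (h | h)
        · exact hx h
        · exact hxT h
    · intro x hx
      rcases hρ x with ⟨h0, h⟩ | ⟨j, hj, hjT, hij⟩ | ⟨hz, hiz⟩
      · exact Or.inr h0
      · rw [hij]
        exact hsub j (hr j)
      · exact absurd (Or.inl hx) hz
    · intro x
      rcases hρ x with ⟨h0, h⟩ | ⟨j, hj, hjT, hij⟩ | ⟨hz, hiz⟩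
      · exact hidT _ h0
      · have h1 : ρ (r j) = r j := by
          rw [hiff]
          exact Or.inr (Or.inl ⟨j, hr j, hjT, rfl⟩)
        rw [hij]
        exact h1
      · rw [hiz, hiz]
    · intro x
      rcases hρ x with ⟨h0, h⟩ | ⟨j, hj, hjT, hij⟩ | ⟨hz, hiz⟩
      · rw [hfT _ h0]
        exact (hP _ h0).1
      · rw [hij, hfr j hjT]
        refine con_of_le ?_ (hmd.1 j)
        intro a ha b hb hab
        rcases hab with hab | hab
        · exact hab.1
        · exact absurd ⟨a, ha, (hD hab).2.1⟩ hjT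
      · rw [hiz, hfo x hz]
        exact Pool.Agent.Helper51.AJ.con_singleton G x
  refine ⟨ρ, ⟨hkc, hnp, hcard, hmd, hcov, hrtr, ?_, ?_, ?_⟩, hfT⟩
  · intro i x hx
    rcases hρ x with ⟨h0, h⟩ | ⟨j, hj, hjT, hij⟩ | ⟨hz, hiz⟩
    · exact hPT _ h0 x h i hx
    · rw [hij, hdj i j x hx hj]
      exact hr j
    · rw [hiz]
      exact hx
  · intro i hiT x hx
    rcases hρ x with ⟨h0, h⟩ | ⟨j, hj, hjT, hij⟩ | ⟨hz, hiz⟩
    · exact h0
    · exact absurd (by rw [← hdj i j x hx hj]; exact hiT) hjT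
    · exact absurd (hsub i hx) hz
  · intro i hiT x hx y hy
    have h1 : ρ x = r i := by
      rw [hiff]
      exact Or.inr (Or.inl ⟨i, hx, hiT, rfl⟩)
    have h2 : ρ y = r i := by
      rw [hiff]
      exact Or.inr (Or.inl ⟨i, hy, hiT, rfl⟩)
    rw [h1, h2]

end Pool.Agent.Helper32.TS
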